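import Pool.Agent.X317.Kos.Mon

/-!
# Betti numbers of all powers of a monomial ideal across all primes

Let `G` be a finite set of exponents of monomials in `n` variables, and for a field `K` let
`I_K = monIdeal K G` be the ideal of `K[x_1, …, x_n]` generated by these monomials. The Betti number
`β_i(M) = dim_K Tor_i(M, K)` of a module `M` over `K[x_1, …, x_n]` is `betti K M i`, the dimension of the
Koszul homology of degree `i` of `x_1, …, x_n` with values in `M`: the Koszul complex is
(`Pool.Agent.X317.Kos.dif`) the complex of the functions `f` from the subsets `T` of `{1, …, n}` to `M`, `f`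
standing for `∑ f(T) e_T`, with the differential
`(d f)(T) = ∑_{j ∉ T} (-1) ^ #{t ∈ T : t < j} x_j f(T ∪ {j})`, the chains of degree `i` being the functions
supported on the subsets with `i` elements.

**Theorem.** There is `N ≥ 1` such that for all primes `p` not dividing `N`, all powers `I ^ h`, `h ≥ 0`, and
all `i` the Betti numbers `β_i(I ^ h)` over `𝔽_p` and over `ℚ` are equal. In particular for every `i` the set
of the sequences `(β_i^{𝔽_p}(I ^ h))_{h ≥ 1}`, `p` prime, is finite: the answer to the question is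
positive.

Proof: the Koszul homology of `x_1, …, x_n` with values in the Rees algebra `⨁ I_ℤ ^ h` over `ℤ` is a
finitely generated module over a noetherian ring, so its `ℤ`-torsion is killed by an integer `N`. For
`p ∤ N` the universal coefficient sequence gives `β_i^{𝔽_p}(I ^ h) = rank_ℤ H_i(x; I_ℤ ^ h)` for all `h`.
-/

set_option autoImplicit false
set_option linter.all false

open Pool.Agent.X317.Kos

namespace Pool.Agent.Results.MP_f65b1b_al.AlmostAllPrimes

theorem result (n : ℕ) (G : Finset (Fin n →₀ ℕ)) :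
    (∃ N : ℕ, 0 < N ∧ ∀ p : ℕ, p.Prime → ¬ p ∣ N → ∀ h i : ℕ,
      betti (n := n) (ZMod p) ↥(monIdeal (ZMod p) G ^ h) i =
        betti (n := n) ℚ ↥(monIdeal ℚ G ^ h) i) ∧
    ∀ i : ℕ, {s : ℕ → ℕ | ∃ p : ℕ, p.Prime ∧
      s = fun h => betti (n := n) (ZMod p) ↥(monIdeal (ZMod p) G ^ (h + 1)) i}.Finite := by
  obtain ⟨N, hN0, hN⟩ := main G
  refine ⟨⟨N, hN0, hN⟩, fun i => ?_⟩
  refine ((Nat.primeFactors N).finite_toSet.image (fun p h =>
    betti (n := n) (ZMod p) ↥(monIdeal (ZMod p) G ^ (h + 1)) i)).union
      (Set.finite_singleton (fun h => betti (n := n) ℚ ↥(monIdeal ℚ G ^ (h + 1)) i)) |>.subset ?_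
  rintro s ⟨p, hp, rfl⟩
  by_cases h : p ∣ N
  · exact Or.inl ⟨p, Nat.mem_primeFactors.2 ⟨hp, h, hN0.ne'⟩, rfl⟩
  · right
    rw [Set.mem_singleton_iff]
    funext m
    exact hN p hp h (m + 1) i

end Pool.Agent.Results.MP_f65b1b_al.AlmostAllPrimes
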